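import Pool.Agent.L7h71.UC.Stm

set_option autoImplicit false

/-!
# Project UC, part FOC: first-order theories in languages whose function symbols are constants
-/

namespace Pool.Agent.L7h47.UC

open Set Function FirstOrder FirstOrder.Language
open Pool.Agent.H533R2.VO (RS RIso Dich)
open Pool.Agent.L7h71.UN (IsEU)
open Pool.Agent.L7h71.UC
open Pool.Agent.W889.FO (VaughtF Vaught SIso)
open Pool.Agent.W889.FO.St0 (RF LF gr W D fun_iff)
open Pool.Agent.R617.VT

variable {L : FirstOrder.Language.{0, 0}}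

/-- `Pool.Agent.W889.FO.St0.reduce` for one theory. -/
theorem red (T : L.Theory) (T' : (LF L).Theory)
    (hT' : ∀ S : (LF L).Structure ℕ, @Theory.Model (LF L) ℕ S T' ↔ W S ∧ @Theory.Model L ℕ (D S) T)
    (hV : Vaught (LF L) T') : VaughtF L T := by
  rcases hV with ⟨g, hg⟩ | ⟨f, hf1, hf2, hf3⟩
  · left
    refine ⟨fun n => D (g n), fun M hM => ?_⟩
    obtain ⟨S, hS, hi⟩ := Pool.Agent.W889.FO.St0.ex M
    obtain ⟨n, hn⟩ := hg S ((hT' S).2 ⟨hS, hi.symm.model hM⟩)
    obtain ⟨T'', hT''⟩ := Pool.Agent.W889.FO.St0.ax_W L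
    have hgn : W (g n) := (hT'' (g n)).1 (SIso.model hn ((hT'' S).2 hS))
    exact ⟨n, hi.symm.trans (Pool.Agent.W889.FO.St0.iso_down hS hgn hn)⟩
  · right
    have hW : ∀ x, W (f x) := fun x => ((hT' _).1 (hf1 x)).1
    refine ⟨fun x => D (f x), fun x => ((hT' _).1 (hf1 x)).2,
      fun x y hxy => hf2 x y (Pool.Agent.W889.FO.St0.iso_up (hW x) (hW y) hxy),
      fun n R a => hf3 n (RF.rel R) a,
      fun n F a b => ?_⟩
    have : {x : ℕ → Bool | @FirstOrder.Language.Structure.funMap L ℕ (D (f x)) n F a = b} =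
        {x | @Structure.RelMap (LF L) ℕ (f x) _ (RF.fn F) (Fin.snoc (α := fun _ => ℕ) a b)} := by
      ext x
      exact fun_iff (hW x) F a b
    rw [this]
    exact (hf3 _ (RF.fn F) _).isOpen

section code

variable {e : (Σ n, (LF L).Relations n) → ℕ} (he : Function.Injective e)

/-- the number of the relation symbol of the constant `c` -/
def kc (e : (Σ n, (LF L).Relations n) → ℕ) (c : L.Functions 0) : ℕ := e ⟨1, RF.fn c⟩

include he in
theorem nm_iff (x : RS (ar e)) (c : L.Functions 0) (v : Fin 0 → ℕ) (p : ℕ) :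
    Nm x (kc e c) p ↔ gr (dc he x) c v p := by
  have h1 : (Fin.snoc (α := fun _ => ℕ) v p : Fin (0 + 1) → ℕ) = fun _ => p := by
    funext m
    refine Fin.lastCases ?_ (fun m' => m'.elim0) m
    simp only [Fin.snoc_last]
  unfold gr
  rw [h1]
  exact Iff.rfl

theorem nm_cst {x : RS (ar e)} (hx : W (dc he x)) (c : L.Functions 0) (p : ℕ) :
    Nm x (kc e c) p ↔ cst (D (dc he x)) c = p := by
  rw [nm_iff he x c (fun i => i.elim0), ← fun_iff hx]
  exact Iff.rfl

theorem nm_cst_self {x : RS (ar e)} (hx : W (dc he x)) (c : L.Functions 0) :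
    Nm x (kc e c) (cst (D (dc he x)) c) := (nm_cst he hx c _).2 rfl

theorem cs_of_W {x : RS (ar e)} (hx : W (dc he x)) : Cs (range (kc e)) x := by
  rintro _ ⟨c, rfl⟩
  exact ⟨_, nm_cst_self he hx c, fun p hp => ((nm_cst he hx c p).1 hp).symm⟩

theorem W_of_cs (hL : ∀ n, IsEmpty (L.Functions (n + 1))) {x : RS (ar e)}
    (hx : Cs (range (kc e)) x) : W (dc he x) := by
  constructor
  · rintro ⟨n, c⟩ v
    cases n with
    | zero =>
      obtain ⟨p, hp, -⟩ := hx _ ⟨c, rfl⟩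
      exact ⟨p, (nm_iff he x c v p).1 hp⟩
    | succ n => exact (hL n).elim c
  · rintro ⟨n, c⟩ v b b' h1 h2
    cases n with
    | zero =>
      obtain ⟨p, -, hp⟩ := hx _ ⟨c, rfl⟩
      exact (hp _ ((nm_iff he x c v b).2 h1)).trans (hp _ ((nm_iff he x c v b').2 h2)).symm
    | succ n => exact (hL n).elim c

end code

theorem s_FOC (h1 : S_CST) (h2 : S_EUC) : S_FOC := by
  classical
  intro L hc hL T hfin hEU
  obtain ⟨T', hT'⟩ := Pool.Agent.W889.FO.St0.ax_theory T
  refine red T T' hT' ?_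
  have hcR : Countable (Σ n, (LF L).Relations n) := Pool.Agent.W889.FO.St0.countable_LF
  obtain ⟨e, he⟩ := Countable.exists_injective_nat (Σ n, (LF L).Relations n)
  refine vaught_of he (h1 (ar e) (range (kc e)) (Md he T') (md_meas he T')
    (fun x y h hx => md_iso he h hx) (fun x hx => cs_of_W he ((hT' _).1 hx.2).1) ?_)
  rintro x ⟨hx1, hx2⟩
  obtain ⟨hW, hM⟩ := (hT' _).1 hx2
  obtain ⟨F, hF⟩ := h2 L hL T hfin hEU (D (dc he x)) hM
  refine ⟨F, fun y hy hxy => ?_⟩
  have hWy : W (dc he y) := W_of_cs he hL hy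
  have hsub : range (cst (D (dc he y))) ⊆ CP (range (kc e)) y := by
    rintro _ ⟨c, rfl⟩
    exact ⟨kc e c, ⟨c, rfl⟩, nm_cst_self he hWy c⟩
  refine ⟨fun i hi v => ?_, (hT' _).2 ⟨hWy, hF (D (dc he y)) fun X => ?_⟩⟩
  · obtain ⟨f, -, -, h⟩ := hxy (Finset.univ.image v)
    rw [← h i v fun j => Or.inl (Finset.mem_coe.2 (Finset.mem_image_of_mem _ (Finset.mem_univ j)))]
    exact hx1 i hi _
  · obtain ⟨f, h3, h4, h5⟩ := hxy X
    refine ⟨f, h4, h3.mono (union_subset_union_right _ hsub), fun c => ?_, fun n R v hv => ?_⟩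
    · have h6 := h5 (kc e c) (fun _ => cst (D (dc he y)) c)
        (fun _ => Or.inr (hsub ⟨c, rfl⟩))
      have h7 : Nm x (kc e c) (f (cst (D (dc he y)) c)) := by
        have h8 : Nm y (kc e c) (cst (D (dc he y)) c) := nm_cst_self he hWy c
        unfold Nm at h8 ⊢
        rw [← h8, ← h6]
        rfl
      exact ((nm_cst he hW c _).1 h7).symm
    · have h9 := h5 (e ⟨n, RF.rel R⟩) (fun k => v (Fin.cast (ar_e he ⟨n, RF.rel R⟩) k))
        fun j => union_subset_union_right _ hsub (hv _)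
      refine Iff.trans (Iff.rfl : _ ↔ x (e ⟨n, RF.rel R⟩)
        (f ∘ fun k => v (Fin.cast (ar_e he ⟨n, RF.rel R⟩) k)) = true) ?_
      rw [h9]
      exact Iff.rfl

end Pool.Agent.L7h47.UC
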